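import Pool.Agent.L2Coh.FPmod
import Pool.Agent.L2Coh.Lin
import Pool.Agent.L2Coh.TreeFp

/-!
# Coherence of groups with `b₂⁽²⁾ = 0` which are virtually left orderable, virtually residually
finite-`p` or linear

A connected two-complex is, up to homotopy, the presentation complex of a presentation
`⟨S | r i (i ∈ ι)⟩` with arbitrary (possibly infinite) index types; relators are words,
`List (S × Bool)`, where `(s, true)` stands for `s` and `(s, false)` for `s⁻¹`.
-/

namespace Pool.Agent.Results.MP_38357e_al.Coherence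

open Pool.Agent.L2Coh

universe u v w

lemma finsum_eq {G S ι : Type*} [Group G] [DecidableEq S] (φ : FreeGroup S →* G)
    (r : ι → List (S × Bool)) (F : ι → G → ℝ) (A0 : Finset ι) (hA0 : ∀ i, i ∉ A0 → F i = 0)
    (g : G) (s : S) :
    ∑ᶠ p : ι × G, F p.1 p.2 * (pathChain φ p.2 (r p.1) (g, s) : ℝ) =
      ∑ i ∈ A0, (fch φ 1 (FreeGroup.mk (r i))).sum
        (fun p n => if p.2 = s then (n : ℝ) * F i (g * p.1⁻¹) else 0) := by
  classical
  have hv : ∀ k i, pathChain φ k (r i) (g, s) = pathChain φ 1 (r i) (k⁻¹ * g, s) := by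
    intro k i
    rw [← fch_mk, fch_lm', lm_apply, fch_mk]
  let B : Finset G := A0.biUnion (fun i => (pathChain φ 1 (r i)).support.image
    (fun p => g * p.1⁻¹))
  rw [finsum_eq_sum_of_support_subset (s := A0 ×ˢ B)]
  · rw [Finset.sum_product]
    apply Finset.sum_congr rfl
    intro i hi
    rw [fch_mk]
    unfold Finsupp.sum
    simp only [hv]
    rw [← Finset.sum_filter]
    have h1 : ∑ p ∈ (pathChain φ 1 (r i)).support.filter (fun p => p.2 = s),
        ((pathChain φ 1 (r i) p : ℤ) : ℝ) * F i (g * p.1⁻¹) =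
        ∑ k ∈ ((pathChain φ 1 (r i)).support.filter (fun p => p.2 = s)).image
          (fun p => g * p.1⁻¹), F i k * ((pathChain φ 1 (r i) (k⁻¹ * g, s) : ℤ) : ℝ) := by
      rw [Finset.sum_image]
      · apply Finset.sum_congr rfl
        rintro ⟨a, b⟩ hp
        rw [Finset.mem_filter] at hp
        have hb : b = s := hp.2
        subst hb
        have : (g * a⁻¹)⁻¹ * g = a := by group
        rw [this, mul_comm]
      · rintro ⟨a, b⟩ hp ⟨a', b'⟩ hp' h
        rw [Finset.mem_coe, Finset.mem_filter] at hp hp'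
        have h2 : a⁻¹ = a'⁻¹ := mul_left_cancel h
        exact Prod.ext (inv_injective h2) (hp.2.trans hp'.2.symm)
    rw [h1]
    symm
    apply Finset.sum_subset
    · intro k hk
      rw [Finset.mem_image] at hk
      obtain ⟨p, hp, rfl⟩ := hk
      rw [Finset.mem_biUnion]
      exact ⟨i, hi, Finset.mem_image_of_mem _ (Finset.mem_filter.1 hp).1⟩
    · intro k _ hk
      have : pathChain φ 1 (r i) (k⁻¹ * g, s) = 0 := by
        by_contra hne
        apply hk
        rw [Finset.mem_image]
        refine ⟨(k⁻¹ * g, s), Finset.mem_filter.2 ⟨Finsupp.mem_support_iff.2 hne, rfl⟩, ?_⟩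
        group
      rw [this]
      simp
  · rintro ⟨i, k⟩ hik
    rw [Function.mem_support] at hik
    have hiA : i ∈ A0 := by
      by_contra hi
      apply hik
      show F i k * _ = 0
      rw [hA0 i hi]
      simp
    rw [Finset.coe_product]
    refine ⟨hiA, ?_⟩
    show k ∈ (B : Set G)
    rw [Finset.mem_coe, Finset.mem_biUnion]
    refine ⟨i, hiA, ?_⟩
    rw [Finset.mem_image]
    refine ⟨(k⁻¹ * g, s), ?_, by group⟩
    rw [Finsupp.mem_support_iff, ← hv]
    intro h0
    apply hik
    show F i k * ((pathChain φ k (r i) (g, s) : ℤ) : ℝ) = 0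
    rw [h0]
    simp

/-- The main theorem for the subgroup itself. -/
theorem main {G S ι : Type*} [Group G] (φ : FreeGroup S →* G) (hφ : Function.Surjective φ)
    (r : ι → List (S × Bool))
    (hr : φ.ker = Subgroup.normalClosure (Set.range fun i => FreeGroup.mk (r i)))
    (hX : SecondL2BettiZero φ r) (H : Subgroup G) (hH : H.FG) :
    (((∃ ε > 0, RankGap H ε) ∨ ∃ p : ℕ, p.Prime ∧ ResiduallyP p H) → TypeFP2 H) ∧
      (TypeFP2 H → TypeFP H) := by
  classical
  have hqex : ∃ q : G → H, q 1 = 1 ∧ ∀ (h : H) (g : G), q (h * g) = h * q g := by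
    obtain ⟨Tr, hTr, hTr1⟩ := H.exists_isComplement_right 1
    refine ⟨fun g => (hTr.equiv g).1, ?_, ?_⟩
    · have := hTr.equiv_one (one_mem H) hTr1
      show (hTr.equiv 1).1 = 1
      rw [this]
      rfl
    · intro h g
      show (hTr.equiv (h * g)).1 = h * (hTr.equiv g).1
      rw [hTr.equiv_mul_left]
  obtain ⟨q, hq1, hq⟩ := hqex
  have hr1 : ∀ i, φ (FreeGroup.mk (r i)) = 1 := by
    intro i
    have : FreeGroup.mk (r i) ∈ φ.ker := by
      rw [hr]
      exact Subgroup.subset_normalClosure ⟨i, rfl⟩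
    exact this
  have hL2 : ∀ (F : ι → G → ℝ) (A0 : Finset ι), (∀ i, i ∉ A0 → F i = 0) →
      (∀ i, Summable (fun g => (F i g) ^ 2)) →
      (∀ g s, ∑ i ∈ A0, (fch φ 1 (FreeGroup.mk (r i))).sum
        (fun p n => if p.2 = s then (n : ℝ) * F i (g * p.1⁻¹) else 0) = 0) → F = 0 := by
    intro F A0 hA0 hF1 hF2
    apply hX F
    · apply A0.finite_toSet.subset
      intro i hi
      by_contra hni
      exact hi (hA0 i hni)
    · exact hF1
    · rintro ⟨g, s⟩
      rw [finsum_eq φ r F A0 hA0 g s]
      exact hF2 g s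
  constructor
  · intro h
    refine ⟨(Group.fg_iff_subgroup_fg H).2 hH, ?_⟩
    intro n ψ hψ
    choose σ hσ using hψ
    choose u hu using fun j : Fin n => hφ (ψ (FreeGroup.of j) : G)
    have key : ∃ T0 : Finset (G × ι), ∀ n : FreeGroup (Fin n), ψ n = 1 → ∃ c : G × ι →₀ ℤ,
        bd (fun i => fch φ 1 (FreeGroup.mk (r i))) c = fch φ 1 (FreeGroup.lift u n) ∧
        ∀ p ∈ c.support, (((q p.1 : G))⁻¹ * p.1, p.2) ∈ T0 := by
      rcases h with ⟨ε, hε, hgap⟩ | ⟨p, hp, hres⟩
      · exact finite_orbits φ (fun i => FreeGroup.mk (r i)) hr H ψ u hu q hq hε hgap hL2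
      · exact finite_orbits_p φ (fun i => FreeGroup.mk (r i)) hr H ψ σ hσ u hu q hq1 hq hp hres hL2
    obtain ⟨T0, hT0⟩ := key
    exact finite_relations φ (fun i => FreeGroup.mk (r i)) hr1 H ψ σ hσ u hu q hq1 hq T0 hT0
  · intro h
    obtain ⟨α, hα, π', hπ'⟩ := Group.fg_iff_exists_freeGroup_hom_surjective_finite.1 h.1
    obtain ⟨n, ⟨e⟩⟩ := Finite.exists_equiv_fin α
    let ψ : FreeGroup (Fin n) →* H := π'.comp (FreeGroup.freeGroupCongr e).symm.toMonoidHom
    have hψ : Function.Surjective ψ := hπ'.comp (FreeGroup.freeGroupCongr e).symm.surjective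
    obtain ⟨T, hT, hT2⟩ := h.2 n ψ hψ
    choose σ hσ using hψ
    choose u hu using fun j : Fin n => hφ (ψ (FreeGroup.of j) : G)
    have hTfin : Finite T := hT
    obtain ⟨m, ⟨e'⟩⟩ := Finite.exists_equiv_fin T
    let t : Fin m → FreeGroup (Fin n) := fun k => (e'.symm k).1
    have ht : Set.range t = T := by
      have h1 : t = Subtype.val ∘ e'.symm := rfl
      rw [h1, Set.range_comp, e'.symm.surjective.range_eq, Set.image_univ, Subtype.range_coe]
    rw [← ht] at hT2
    obtain ⟨sec, hsec, hlm⟩ := exists_sec φ (fun i => FreeGroup.mk (r i)) hr H ψ σ hσ u hu q hq1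
      hq hL2 t hT2
    apply typeFP_of_sec ψ σ hσ t _ sec hsec hlm
    intro k
    have h1 : t k ∈ ψ.ker := by
      rw [hT2]
      exact Subgroup.mem_sup_left (Subgroup.subset_normalClosure ⟨k, rfl⟩)
    exact h1

/-- `FP₂` passes to overgroups of finite index. -/
lemma TypeFP2.of_finiteIndex {L H : Type*} [Group L] [Group H] (j : L →* H)
    (hj : Function.Injective j) (hfi : j.range.FiniteIndex) (hL : TypeFP2 L) (hH : Group.FG H) :
    TypeFP2 H := by
  refine ⟨hH, ?_⟩
  intro n ψ hψ
  let F' : Subgroup (FreeGroup (Fin n)) := j.range.comap ψ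
  have hF' : F'.FiniteIndex := by
    constructor
    rw [Subgroup.index_comap_of_surjective _ hψ]
    exact hfi.index_ne_zero
  have hF'fg : Group.FG F' := inferInstance
  obtain ⟨α, hα, π', hπ'⟩ := Group.fg_iff_exists_freeGroup_hom_surjective_finite.1 hF'fg
  obtain ⟨m, ⟨e⟩⟩ := Finite.exists_equiv_fin α
  let π : FreeGroup (Fin m) →* F' := π'.comp (FreeGroup.freeGroupCongr e).symm.toMonoidHom
  have hπ : Function.Surjective π := hπ'.comp (FreeGroup.freeGroupCongr e).symm.surjective
  let ψ' : F' →* j.range := (ψ.comp F'.subtype).codRestrict j.range (fun x => x.2)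
  let θ : FreeGroup (Fin m) →* L :=
    (MonoidHom.ofInjective hj).symm.toMonoidHom.comp (ψ'.comp π)
  have hθ : ∀ x, j (θ x) = ψ ((π x : F') : FreeGroup (Fin n)) := by
    intro x
    have h1 : ((MonoidHom.ofInjective hj) (θ x) : H) = (ψ' (π x) : H) := by
      show ((MonoidHom.ofInjective hj) ((MonoidHom.ofInjective hj).symm (ψ' (π x))) : H) = _
      rw [MulEquiv.apply_symm_apply]
    exact h1
  have hθs : Function.Surjective θ := by
    intro l
    obtain ⟨w, hw⟩ := hψ (j l)
    have hwF : w ∈ F' := ⟨l, hw.symm⟩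
    obtain ⟨x, hx⟩ := hπ ⟨w, hwF⟩
    refine ⟨x, hj ?_⟩
    rw [hθ, hx]
    exact hw
  obtain ⟨T', hT', hT'2⟩ := hL.2 m θ hθs
  let P : FreeGroup (Fin m) →* FreeGroup (Fin n) := F'.subtype.comp π
  have hP : ∀ x, j (θ x) = ψ (P x) := hθ
  have hker : ∀ x ∈ θ.ker, P x ∈ ψ.ker := by
    intro x hx
    have h1 : θ x = 1 := hx
    show ψ (P x) = 1
    rw [← hP, h1, map_one]
  refine ⟨P '' T', hT'.image _, ?_⟩
  have hsub : P '' T' ⊆ ψ.ker := by
    rintro _ ⟨t, ht, rfl⟩
    apply hker
    rw [hT'2]
    exact Subgroup.mem_sup_left (Subgroup.subset_normalClosure ht)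
  apply le_antisymm
  · intro w hw
    have hw1 : ψ w = 1 := hw
    have hwF : w ∈ F' := by
      show ψ w ∈ j.range
      rw [hw1]
      exact one_mem _
    obtain ⟨x, hx⟩ := hπ ⟨w, hwF⟩
    have hPx : P x = w := congrArg Subtype.val hx
    have hxk : x ∈ θ.ker := by
      show θ x = 1
      apply hj
      rw [hP, hPx, hw1, map_one]
    rw [← hPx]
    rw [hT'2] at hxk
    have h1 : Subgroup.normalClosure T' ⊔ ⁅θ.ker, θ.ker⁆ ≤
        (Subgroup.normalClosure (P '' T') ⊔ ⁅ψ.ker, ψ.ker⁆).comap P := by
      apply sup_le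
      · have : ((Subgroup.normalClosure (P '' T')).comap P).Normal := inferInstance
        refine le_trans (Subgroup.normalClosure_le_normal (N :=
          (Subgroup.normalClosure (P '' T')).comap P) ?_) (Subgroup.comap_mono le_sup_left)
        intro t ht
        exact Subgroup.subset_normalClosure ⟨t, ht, rfl⟩
      · rw [← Subgroup.map_le_iff_le_comap, Subgroup.map_commutator]
        refine le_trans (Subgroup.commutator_mono ?_ ?_) le_sup_right
        · rintro _ ⟨y, hy, rfl⟩
          exact hker y hy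
        · rintro _ ⟨y, hy, rfl⟩
          exact hker y hy
    exact h1 hxk
  · exact sup_le (Subgroup.normalClosure_le_normal hsub) (Subgroup.commutator_le_left _ _)

lemma leftOrderable_of_injective {K L : Type*} [Group K] [Group L] (f : L →* K)
    (hf : Function.Injective f) (hK : LeftOrderable K) : LeftOrderable L := by
  obtain ⟨o, ho⟩ := hK
  refine ⟨LinearOrder.lift' f hf, ?_⟩
  intro a b c hbc
  show f (a * b) < f (a * c)
  rw [map_mul, map_mul]
  exact ho _ _ _ hbc

lemma residuallyP_of_injective {p : ℕ} (hp : p.Prime) {K L : Type*} [Group K] [Group L]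
    (f : L →* K) (hf : Function.Injective f) (hK : ResiduallyP p K) : ResiduallyP p L := by
  intro l hl
  obtain ⟨N, hN, ⟨k, hk⟩, hlN⟩ := hK (f l) (fun h => hl (hf (by rw [h, map_one])))
  refine ⟨N.comap f, inferInstance, ?_, hlN⟩
  have h1 : (N.comap f).index ∣ p ^ k := by
    rw [Subgroup.index_comap, ← hk]
    exact Subgroup.relIndex_dvd_index_of_normal N f.range
  obtain ⟨k', _, hk'⟩ := (Nat.dvd_prime_pow hp).1 h1
  exact ⟨k', hk'⟩

lemma rankGap_of_injective {ε : ℝ} {K L : Type*} [Group K] [Group L]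
    (f : L →* K) (hf : Function.Injective f) (hK : RankGap K ε) : RankGap L ε := by
  intro a x ha hx hrel
  let y : K → ℝ := Function.extend f x 0
  have hy : ∀ l, y (f l) = x l := fun l => hf.extend_apply _ _ _
  have hy0 : ∀ k, k ∉ Set.range f → y k = 0 := by
    intro k hk
    exact Function.extend_apply' _ _ _ (by simpa using hk)
  have hsum : Summable (fun k => (y k) ^ 2) := by
    rw [← hf.summable_iff (f := fun k => (y k) ^ 2)]
    · refine hx.congr ?_
      intro l
      show _ = (y (f l)) ^ 2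
      rw [hy]
    · intro k hk
      rw [hy0 k hk]
      norm_num
  have htsum : ∑' k, (y k) ^ 2 = ∑' l, (x l) ^ 2 := by
    rw [← hf.tsum_eq (f := fun k => (y k) ^ 2)]
    · apply tsum_congr
      intro l
      rw [hy]
    · intro k hk
      by_contra hne
      apply hk
      show (y k) ^ 2 = 0
      rw [hy0 k hne]
      norm_num
  have h1 := hK (a.mapDomain f) y (by
    intro h0
    apply ha
    exact Finsupp.mapDomain_injective hf (by rw [h0, Finsupp.mapDomain_zero])) hsum (by
    intro g
    rw [Finsupp.sum_mapDomain_index_inj hf]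
    by_cases hg : g ∈ Set.range f
    · obtain ⟨l, rfl⟩ := hg
      rw [← hrel l]
      apply Finsupp.sum_congr
      intro h _
      rw [← map_inv, ← map_mul, hy]
    · apply Finset.sum_eq_zero
      intro h _
      beta_reduce
      rw [hy0, mul_zero]
      rintro ⟨l, hl⟩
      apply hg
      refine ⟨l * h, ?_⟩
      rw [map_mul, hl, inv_mul_cancel_right])
  rw [htsum] at h1
  have h2 : y 1 = x 1 := by rw [← map_one f, hy]
  rwa [h2] at h1

lemma fg_inf {G : Type*} [Group G] (H K : Subgroup G) (hH : H.FG) (hK : K.relIndex H ≠ 0) :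
    (K ⊓ H).FG := by
  have hHfg : Group.FG H := (Group.fg_iff_subgroup_fg H).2 hH
  have hfi : (K.subgroupOf H).FiniteIndex := ⟨hK⟩
  have hfg : Group.FG (K.subgroupOf H) := inferInstance
  rw [← Group.fg_iff_subgroup_fg]
  have h1 : (K.subgroupOf H).map H.subtype = K ⊓ H := Subgroup.subgroupOf_map_subtype K H
  rw [← h1]
  exact Group.fg_of_surjective ((H.subtype.subgroupMap_surjective (K.subgroupOf H)))

/-- The virtual form of the main theorem. -/
theorem main_virtual {G S ι : Type*} [Group G] (φ : FreeGroup S →* G)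
    (hφ : Function.Surjective φ) (r : ι → List (S × Bool))
    (hr : φ.ker = Subgroup.normalClosure (Set.range fun i => FreeGroup.mk (r i)))
    (hX : SecondL2BettiZero φ r) (H K : Subgroup G) (hH : H.FG) (hK : K.relIndex H ≠ 0)
    (h : (∃ ε > 0, RankGap K ε) ∨ ∃ p : ℕ, p.Prime ∧ ResiduallyP p K) : TypeFP2 H := by
  have hHfg : Group.FG H := (Group.fg_iff_subgroup_fg H).2 hH
  have hfi2 : (Subgroup.inclusion (inf_le_right : K ⊓ H ≤ H)).range.FiniteIndex := by
    rw [Subgroup.inclusion_range, Subgroup.inf_subgroupOf_right]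
    exact ⟨hK⟩
  apply TypeFP2.of_finiteIndex (Subgroup.inclusion (inf_le_right : K ⊓ H ≤ H))
    (Subgroup.inclusion_injective _) hfi2 _ hHfg
  apply (main φ hφ r hr hX (K ⊓ H) (fg_inf H K hH hK)).1
  rcases h with ⟨ε, hε, h⟩ | ⟨p, hp, h⟩
  · exact Or.inl ⟨ε, hε, rankGap_of_injective (Subgroup.inclusion (inf_le_left : K ⊓ H ≤ K))
      (Subgroup.inclusion_injective _) h⟩
  · exact Or.inr ⟨p, hp, residuallyP_of_injective hp
      (Subgroup.inclusion (inf_le_left : K ⊓ H ≤ K)) (Subgroup.inclusion_injective _) h⟩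

/-- The four cases. -/
theorem main_cases {G S ι : Type*} [Group G] (φ : FreeGroup S →* G) (hφ : Function.Surjective φ)
    (r : ι → List (S × Bool))
    (hr : φ.ker = Subgroup.normalClosure (Set.range fun i => FreeGroup.mk (r i)))
    (hX : SecondL2BettiZero φ r) (H K : Subgroup G) (hH : H.FG) (hK : K.relIndex H ≠ 0)
    (h : LeftOrderable K ∨ (∃ p : ℕ, p.Prime ∧ ResiduallyP p K) ∨ Linear.{w} K ∨
      ∃ ε > 0, RankGap K ε) : TypeFP2 H := by
  rcases h with h | h | ⟨F, _, n, f, hf⟩ | h
  · exact main_virtual φ hφ r hr hX H K hH hK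
      (Or.inl ⟨1, one_pos, rankGap_of_leftOrderable h⟩)
  · exact main_virtual φ hφ r hr hX H K hH hK (Or.inr h)
  · have hfg2 : Group.FG (K ⊓ H : Subgroup G) :=
      (Group.fg_iff_subgroup_fg _).2 (fg_inf H K hH hK)
    obtain ⟨L, hL, p, hp, hres⟩ := linear_virtually hfg2 n
      (f.comp (Subgroup.inclusion (inf_le_left : K ⊓ H ≤ K)))
      (hf.comp (Subgroup.inclusion_injective _))
    refine main_virtual φ hφ r hr hX H (L.map (K ⊓ H).subtype) hH ?_ (Or.inr ⟨p, hp, ?_⟩)
    · have h1 : (L.map (K ⊓ H).subtype).relIndex (K ⊓ H) ≠ 0 := by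
        have h2 : (L.map (K ⊓ H).subtype).relIndex (K ⊓ H) = L.index := by
          rw [Subgroup.relIndex, Subgroup.subgroupOf,
            Subgroup.comap_map_eq_self_of_injective (Subgroup.subtype_injective _)]
        rw [h2]
        exact hL.index_ne_zero
      apply Subgroup.relIndex_ne_zero_trans h1
      rw [Subgroup.inf_relIndex_right]
      exact hK
    · exact residuallyP_of_injective hp
        (L.equivMapOfInjective _ (Subgroup.subtype_injective _)).symm.toMonoidHom
        (L.equivMapOfInjective _ (Subgroup.subtype_injective _)).symm.injective hres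
  · exact main_virtual φ hφ r hr hX H K hH hK (Or.inl h)

/-- `FP₂` is invariant under isomorphisms. -/
lemma TypeFP2.of_equiv {L H : Type*} [Group L] [Group H] (e : L ≃* H) (hL : TypeFP2 L) :
    TypeFP2 H := by
  have h1 : e.toMonoidHom.range = ⊤ := MonoidHom.range_eq_top.2 e.surjective
  have hfg : Group.FG L := hL.1
  exact TypeFP2.of_finiteIndex e.toMonoidHom e.injective (by rw [h1]; infer_instance) hL
    (Group.fg_of_surjective (f := e.toMonoidHom) e.surjective)

/-- Homologically coherent groups with a hierarchy are coherent. -/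
theorem coherent_of_hierarchy {G : Type u} {inst : Group G} (hG : Hierarchy.{u, v} G inst)
    (hcoh : ∀ L : Subgroup G, L.FG → TypeFP2 L) :
    ∀ L : Subgroup G, L.FG → Group.IsFinitelyPresented L := by
  induction hG with
  | base G inst h =>
    intro L hL
    exact h L (hcoh L hL)
  | tree G inst V act T hT hadj _ ih =>
    intro L hL
    obtain ⟨hfg, hpres⟩ := hcoh L hL
    obtain ⟨α, hα, π', hπ'⟩ := Group.fg_iff_exists_freeGroup_hom_surjective_finite.1 hfg
    obtain ⟨n, ⟨e⟩⟩ := Finite.exists_equiv_fin α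
    let ψ : FreeGroup (Fin n) →* L := π'.comp (FreeGroup.freeGroupCongr e).symm.toMonoidHom
    have hψ : Function.Surjective ψ := hπ'.comp (FreeGroup.freeGroupCongr e).symm.surjective
    obtain ⟨T0, hT0, hT02⟩ := hpres n ψ hψ
    obtain ⟨Q, hQ, hQ2⟩ := tree_fp T hT (fun (h : L) v w hvw => hadj (h : G) v w hvw) ψ hψ T0 hT0
      hT02 (by
      intro v M hM hMfg
      -- the subgroup as a subgroup of the stabiliser
      have hMle : M.map L.subtype ≤ MulAction.stabilizer G v := by
        rintro _ ⟨m, hm, rfl⟩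
        exact hM hm
      have hMfg' : Group.FG M := (Group.fg_iff_subgroup_fg M).2 hMfg
      let e1 : M ≃* M.map L.subtype := M.equivMapOfInjective _ (Subgroup.subtype_injective _)
      let e2 : (M.map L.subtype).subgroupOf (MulAction.stabilizer G v) ≃* M.map L.subtype :=
        Subgroup.subgroupOfEquivOfLe hMle
      have hfg1 : Group.FG ((M.map L.subtype).subgroupOf (MulAction.stabilizer G v)) :=
        Group.fg_of_surjective (f := (e1.trans e2.symm).toMonoidHom) (e1.trans e2.symm).surjective
      have h1 := ih v (by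
        intro M' hM'
        have hM'fg : Group.FG M' := (Group.fg_iff_subgroup_fg M').2 hM'
        let e3 : M' ≃* M'.map (MulAction.stabilizer G v).subtype :=
          M'.equivMapOfInjective _ (Subgroup.subtype_injective _)
        have h2 : (M'.map (MulAction.stabilizer G v).subtype).FG := by
          rw [← Group.fg_iff_subgroup_fg]
          exact Group.fg_of_surjective (f := e3.toMonoidHom) e3.surjective
        exact TypeFP2.of_equiv e3.symm (hcoh _ h2))
        ((M.map L.subtype).subgroupOf (MulAction.stabilizer G v))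
        ((Group.fg_iff_subgroup_fg _).1 hfg1)
      exact Group.IsFinitelyPresented.equiv (e2.trans e1.symm))
    exact ⟨n, ψ, hψ, Q, hQ, hQ2⟩

/-- Let `G = ⟨S | r⟩` be the fundamental group of a connected two-complex `X`, possibly infinite,
with `b₂⁽²⁾(X) = 0`. Let `H, K ≤ G` be subgroups such that `H ∩ K` has finite index in `H` (for
instance `H = G` and `K` of finite index in `G`). Assume that `K` is left orderable, or residually a
finite `p`-group for some prime `p`, or linear over a field, or has a rank gap. Then every finitely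
generated subgroup of `H` is of type `FP₂` and even of type `FP`; and if `H` has a hierarchy then
every finitely generated subgroup of `H` is finitely presented, that is, `H` is coherent. -/
theorem result {G : Type u} {S ι : Type*} [Group G] (φ : FreeGroup S →* G)
    (hφ : Function.Surjective φ) (r : ι → List (S × Bool))
    (hr : φ.ker = Subgroup.normalClosure (Set.range fun i => FreeGroup.mk (r i)))
    (hX : SecondL2BettiZero φ r) (H K : Subgroup G) (hK : K.relIndex H ≠ 0)
    (h : LeftOrderable K ∨ (∃ p : ℕ, p.Prime ∧ ResiduallyP p K) ∨ Linear.{w} K ∨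
      ∃ ε > 0, RankGap K ε) :
    (∀ L : Subgroup G, L ≤ H → L.FG → TypeFP2 L ∧ TypeFP L) ∧
      (Hierarchy.{u, v} H inferInstance →
        ∀ L : Subgroup G, L ≤ H → L.FG → Group.IsFinitelyPresented L) := by
  have h1 : ∀ L : Subgroup G, L ≤ H → L.FG → TypeFP2 L := by
    intro L hLH hL
    refine main_cases φ hφ r hr hX L K hL ?_ h
    intro h0
    exact hK (Subgroup.relIndex_eq_zero_of_le_right hLH h0)
  refine ⟨fun L hLH hL => ⟨h1 L hLH hL, (main φ hφ r hr hX L hL).2 (h1 L hLH hL)⟩, ?_⟩
  intro hhier L hLH hL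
  have hLfg : Group.FG L := (Group.fg_iff_subgroup_fg L).2 hL
  let e : L.subgroupOf H ≃* L := Subgroup.subgroupOfEquivOfLe hLH
  have hfg : Group.FG (L.subgroupOf H) :=
    Group.fg_of_surjective (f := e.symm.toMonoidHom) e.symm.surjective
  have h2 := coherent_of_hierarchy hhier (by
    intro M hM
    have hMfg : Group.FG M := (Group.fg_iff_subgroup_fg M).2 hM
    let e3 : M ≃* M.map H.subtype := M.equivMapOfInjective _ (Subgroup.subtype_injective _)
    have h3 : (M.map H.subtype).FG := by
      rw [← Group.fg_iff_subgroup_fg]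
      exact Group.fg_of_surjective (f := e3.toMonoidHom) e3.surjective
    refine TypeFP2.of_equiv e3.symm (h1 _ ?_ h3)
    rintro _ ⟨m, _, rfl⟩
    exact m.2) (L.subgroupOf H) ((Group.fg_iff_subgroup_fg _).1 hfg)
  exact Group.IsFinitelyPresented.equiv e

end Pool.Agent.Results.MP_38357e_al.Coherence
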