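import Pool.Agent.L2Coh.ExpFp
import Pool.Agent.L2Coh.ExpHyp
import Pool.Agent.L2Coh.Morse
import Pool.Agent.Results.MP_38357e_al.Coherence

/-!
# From homological coherence to coherence

A connected two-complex is, up to homotopy, the presentation complex of a presentation
`⟨S | r i (i ∈ ι)⟩` with arbitrary (possibly infinite) index types; relators are words,
`List (S × Bool)`, where `(s, true)` stands for `s` and `(s, false)` for `s⁻¹`.
-/

namespace Pool.Agent.Results.MP_38357e_al.GeometricCoherence

open Pool.Agent.L2Coh

universe u v w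

/-- `b₂⁽²⁾(X) = 0` implies `H₂(X̃) = 0`. -/
lemma secondHomologyZero {G S ι : Type*} [Group G] (φ : FreeGroup S →* G)
    (r : ι → List (S × Bool)) (hX : SecondL2BettiZero φ r) : SecondHomologyZero φ r := by
  classical
  intro c hc
  have h1 := hX (fun i k => (c (i, k) : ℝ)) (by
    apply (c.support.image Prod.fst).finite_toSet.subset
    intro i hi
    rw [Finset.mem_coe, Finset.mem_image]
    by_contra hcon
    apply hi
    funext k
    show ((c (i, k) : ℤ) : ℝ) = 0
    by_contra hk
    apply hcon
    refine ⟨(i, k), ?_, rfl⟩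
    rw [Finsupp.mem_support_iff]
    intro h0
    rw [h0] at hk
    exact hk Int.cast_zero) (by
    intro i
    apply summable_of_finite_support
    apply (c.support.finite_toSet.preimage
      (f := fun k => (i, k)) (fun a _ b _ h => (Prod.ext_iff.1 h).2)).subset
    intro k hk
    show (i, k) ∈ (c.support : Set (ι × G))
    rw [Finset.mem_coe, Finsupp.mem_support_iff]
    intro h0
    apply hk
    show ((c (i, k) : ℤ) : ℝ) ^ 2 = 0
    rw [h0]
    simp) (by
    intro e
    rw [finsum_eq_sum_of_support_subset (s := c.support)]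
    · have h2 := DFunLike.congr_fun hc e
      rw [Finsupp.sum, Finsupp.finsetSum_apply] at h2
      have h3 : ((∑ p ∈ c.support, (c p • pathChain φ p.2 (r p.1)) e : ℤ) : ℝ) = 0 := by
        rw [h2]
        simp
      rw [← h3, Int.cast_sum]
      apply Finset.sum_congr rfl
      intro p _
      rw [Finsupp.smul_apply, smul_eq_mul, Int.cast_mul]
    · intro p hp
      rw [Finset.mem_coe, Finsupp.mem_support_iff]
      intro h0
      apply hp
      show ((c (p.1, p.2) : ℤ) : ℝ) * _ = 0
      rw [show c (p.1, p.2) = 0 from h0]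
      simp)
  ext ⟨i, k⟩
  have h2 : ((c (i, k) : ℤ) : ℝ) = 0 := congrFun (congrFun h1 i) k
  have h3 : c (i, k) = 0 := by exact_mod_cast h2
  rw [h3]
  rfl

/-- Finite presentability passes to overgroups of finite index. -/
lemma fp_of_finiteIndex {L : Type*} [Group L] (hL : Group.FG L) (K : Subgroup L)
    (hK : K.index ≠ 0) (hfp : Group.IsFinitelyPresented K) : Group.IsFinitelyPresented L := by
  obtain ⟨α, hα, π', hπ'⟩ := Group.fg_iff_exists_freeGroup_hom_surjective_finite.1 hL
  obtain ⟨n, ⟨e⟩⟩ := Finite.exists_equiv_fin α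
  let ψ : FreeGroup (Fin n) →* L := π'.comp (FreeGroup.freeGroupCongr e).symm.toMonoidHom
  have hψ : Function.Surjective ψ := hπ'.comp (FreeGroup.freeGroupCongr e).symm.surjective
  let F' : Subgroup (FreeGroup (Fin n)) := K.comap ψ
  have hF' : F'.FiniteIndex := by
    constructor
    rw [Subgroup.index_comap_of_surjective _ hψ]
    exact hK
  have hF'fg : Group.FG F' := inferInstance
  let θ : F' →* K := (ψ.comp F'.subtype).codRestrict K (fun x => x.2)
  have hθ : Function.Surjective θ := by
    rintro ⟨k, hk⟩
    obtain ⟨x, hx⟩ := hψ k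
    exact ⟨⟨x, by show ψ x ∈ K; rw [hx]; exact hk⟩, Subtype.ext hx⟩
  obtain ⟨S, hS, hS2⟩ := ker_fng hF'fg hfp θ hθ
  refine ⟨n, ψ, hψ, F'.subtype '' S, hS.image _, ?_⟩
  apply le_antisymm
  · apply Subgroup.normalClosure_le_normal
    rintro _ ⟨s, hs, rfl⟩
    have h1 : s ∈ θ.ker := by
      rw [← hS2]
      exact Subgroup.subset_normalClosure hs
    have h2 : θ s = 1 := h1
    exact congrArg Subtype.val h2
  · intro x hx
    have hx1 : ψ x = 1 := hx
    have hxF : x ∈ F' := by
      show ψ x ∈ K
      rw [hx1]
      exact K.one_mem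
    have h1 : (⟨x, hxF⟩ : F') ∈ Subgroup.normalClosure S := by
      rw [hS2]
      exact Subtype.ext hx1
    have h2 : Subgroup.normalClosure S ≤
        (Subgroup.normalClosure (F'.subtype '' S)).comap F'.subtype := by
      apply Subgroup.normalClosure_le_normal
      intro s hs
      exact Subgroup.subset_normalClosure ⟨s, hs, rfl⟩
    exact h2 h1

/-- `FP₂` subgroups of a group `G` which embeds into a group whose subgroups of type `FP₂` are
finitely presented. -/
lemma fp_of_embedding {G G' : Type*} [Group G] [Group G'] (f : G →* G')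
    (hf : Function.Injective f)
    (h : ∀ L : Subgroup G', TypeFP2 L → Group.IsFinitelyPresented L) (L : Subgroup G)
    (hL : TypeFP2 L) : Group.IsFinitelyPresented L := by
  let e : L ≃* L.map f := L.equivMapOfInjective f hf
  have h1 := h (L.map f) (Coherence.TypeFP2.of_equiv e hL)
  exact Group.IsFinitelyPresented.equiv e.symm

/-- Homologically coherent groups in the class `Geometric` are coherent. -/
theorem coherent_of_geometric {G : Type u} {inst : Group G} (hG : Geometric.{u, v} G inst)
    (hcoh : ∀ L : Subgroup G, L.FG → TypeFP2 L) :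
    ∀ L : Subgroup G, L.FG → Group.IsFinitelyPresented L := by
  -- homological coherence passes to subgroups
  have hsub : ∀ {A : Type u} (instA : Group A), (∀ L : Subgroup A, L.FG → TypeFP2 L) →
      ∀ K : Subgroup A, ∀ M : Subgroup K, M.FG → TypeFP2 M := by
    intro A instA hA K M hM
    have hMfg : Group.FG M := (Group.fg_iff_subgroup_fg M).2 hM
    let e3 : M ≃* M.map K.subtype := M.equivMapOfInjective _ (Subgroup.subtype_injective _)
    have h3 : (M.map K.subtype).FG := by
      rw [← Group.fg_iff_subgroup_fg]
      exact Group.fg_of_surjective (f := e3.toMonoidHom) e3.surjective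
    exact Coherence.TypeFP2.of_equiv e3.symm (hA _ h3)
  induction hG with
  | base G inst h =>
    intro L hL
    exact h L (hcoh L hL)
  | expandable G inst G' S ι inst' f hf φ hφ r hr h =>
    intro L hL
    exact fp_of_embedding f hf (fun M hM => fp_of_expandable φ hφ r hr h 0 (by norm_num) M
      hM.mod_zero) L (hcoh L hL)
  | filling G inst G' S ι inst' f hf φ hφ r hr h h' =>
    intro L hL
    exact fp_of_embedding f hf (fun M hM => fp_of_subquadratic φ hφ r hr h h' M hM) L (hcoh L hL)
  | tree G inst V act T hT hadj _ ih =>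
    intro L hL
    obtain ⟨hfg, hpres⟩ := hcoh L hL
    obtain ⟨α, hα, π', hπ'⟩ := Group.fg_iff_exists_freeGroup_hom_surjective_finite.1 hfg
    obtain ⟨n, ⟨e⟩⟩ := Finite.exists_equiv_fin α
    let ψ : FreeGroup (Fin n) →* L := π'.comp (FreeGroup.freeGroupCongr e).symm.toMonoidHom
    have hψ : Function.Surjective ψ := hπ'.comp (FreeGroup.freeGroupCongr e).symm.surjective
    obtain ⟨T0, hT0, hT02⟩ := hpres n ψ hψ
    obtain ⟨Q, hQ, hQ2⟩ := tree_fp T hT (fun (h : L) v w hvw => hadj (h : G) v w hvw) ψ hψ T0 hT0
      hT02 (by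
      intro v M hM hMfg
      have hMle : M.map L.subtype ≤ MulAction.stabilizer G v := by
        rintro _ ⟨m, hm, rfl⟩
        exact hM hm
      have hMfg' : Group.FG M := (Group.fg_iff_subgroup_fg M).2 hMfg
      let e1 : M ≃* M.map L.subtype := M.equivMapOfInjective _ (Subgroup.subtype_injective _)
      let e2 : (M.map L.subtype).subgroupOf (MulAction.stabilizer G v) ≃* M.map L.subtype :=
        Subgroup.subgroupOfEquivOfLe hMle
      have hfg1 : Group.FG ((M.map L.subtype).subgroupOf (MulAction.stabilizer G v)) :=
        Group.fg_of_surjective (f := (e1.trans e2.symm).toMonoidHom) (e1.trans e2.symm).surjective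
      have h1 := ih v (hsub inst hcoh _)
        ((M.map L.subtype).subgroupOf (MulAction.stabilizer G v))
        ((Group.fg_iff_subgroup_fg _).1 hfg1)
      exact Group.IsFinitelyPresented.equiv (e2.trans e1.symm))
    exact ⟨n, ψ, hψ, Q, hQ, hQ2⟩
  | virtually G inst K hK _ ih =>
    intro L hL
    have hLfg : Group.FG L := (Group.fg_iff_subgroup_fg L).2 hL
    have hrel : K.relIndex L ≠ 0 := by
      intro h0
      apply hK
      rw [← Subgroup.relIndex_top_right]
      exact Subgroup.relIndex_eq_zero_of_le_right le_top h0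
    have hKL : (K ⊓ L).FG := Coherence.fg_inf L K hL hrel
    have hKLfg : Group.FG (K ⊓ L : Subgroup G) := (Group.fg_iff_subgroup_fg _).2 hKL
    let e : (K ⊓ L).subgroupOf K ≃* (K ⊓ L : Subgroup G) :=
      Subgroup.subgroupOfEquivOfLe inf_le_left
    have hfg1 : Group.FG ((K ⊓ L).subgroupOf K) :=
      Group.fg_of_surjective (f := e.symm.toMonoidHom) e.symm.surjective
    have h1 := ih (hsub inst hcoh K) ((K ⊓ L).subgroupOf K) ((Group.fg_iff_subgroup_fg _).1 hfg1)
    have h2 : Group.IsFinitelyPresented (K ⊓ L : Subgroup G) :=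
      Group.IsFinitelyPresented.equiv e
    let e2 : (K ⊓ L).subgroupOf L ≃* (K ⊓ L : Subgroup G) :=
      Subgroup.subgroupOfEquivOfLe inf_le_right
    have h3 : Group.IsFinitelyPresented ((K ⊓ L).subgroupOf L) :=
      Group.IsFinitelyPresented.equiv e2.symm
    apply fp_of_finiteIndex hLfg ((K ⊓ L).subgroupOf L) _ h3
    rw [Subgroup.inf_subgroupOf_right]
    exact hrel
  | locally_ G inst _ ih =>
    intro L hL
    have hLfg : Group.FG L := (Group.fg_iff_subgroup_fg L).2 hL
    have htop : (⊤ : Subgroup L).FG := hLfg.out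
    have h1 := ih L hL (hsub inst hcoh L) ⊤ htop
    exact Group.IsFinitelyPresented.equiv (Subgroup.topEquiv (G := L))

/-- **Theorem.** (A) Let `G = ⟨S | r⟩` have an expandable complex (for instance one with a Morse
relation whose descending links are forests) and let `m ≠ 1`. Then every subgroup of `G` of type
`FP₂` over `ℤ/m` is finitely presented.

(B) If `H₂(X̃) = 0` and `X̃` satisfies a subquadratic homological isoperimetric inequality then
every subgroup of `G` of type `FP₂` is finitely presented.

(C) Homological coherence and coherence are equivalent for all groups in the class `Geometric`.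

(D) Let `X` be a connected two-complex, possibly infinite, with fundamental group
`G = ⟨S | r⟩` and `b₂⁽²⁾(X) = 0`. Let `H, K ≤ G` be subgroups such that `H ∩ K` has finite index in
`H` and such that `K` is left orderable, or residually a finite `p`-group for some prime `p`, or
linear over a field, or has a rank gap. Suppose that `X` is expandable, or has a Morse relation
whose descending links are forests, or satisfies a subquadratic homological isoperimetric
inequality, or that `H` belongs to the class `Geometric`. Then `H` is coherent. -/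
theorem result :
    (∀ (G S ι : Type u) [Group G] (φ : FreeGroup S →* G) (_ : Function.Surjective φ)
      (r : ι → List (S × Bool))
      (_ : φ.ker = Subgroup.normalClosure (Set.range fun i => FreeGroup.mk (r i)))
      (_ : Expandable φ r ∨ ForestMorse φ r) (m : ℕ) (_ : m ≠ 1) (H : Subgroup G)
      (_ : TypeFP2Mod m H), Group.IsFinitelyPresented H) ∧
    (∀ (G S ι : Type u) [Group G] (φ : FreeGroup S →* G) (_ : Function.Surjective φ)
      (r : ι → List (S × Bool))
      (_ : φ.ker = Subgroup.normalClosure (Set.range fun i => FreeGroup.mk (r i)))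
      (_ : SecondHomologyZero φ r) (_ : SubquadraticFilling φ r) (H : Subgroup G)
      (_ : TypeFP2 H), Group.IsFinitelyPresented H) ∧
    (∀ (H : Type u) (inst : Group H) (_ : Geometric.{u, v} H inst)
      (_ : ∀ L : Subgroup H, L.FG → TypeFP2 L) (L : Subgroup H) (_ : L.FG),
      Group.IsFinitelyPresented L) ∧
    (∀ (G S ι : Type u) [Group G] (φ : FreeGroup S →* G) (_ : Function.Surjective φ)
      (r : ι → List (S × Bool))
      (_ : φ.ker = Subgroup.normalClosure (Set.range fun i => FreeGroup.mk (r i)))
      (_ : SecondL2BettiZero φ r) (H K : Subgroup G) (_ : K.relIndex H ≠ 0)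
      (_ : LeftOrderable K ∨ (∃ p : ℕ, p.Prime ∧ ResiduallyP p K) ∨ Linear.{w} K ∨
        ∃ ε > 0, RankGap K ε)
      (_ : Expandable φ r ∨ ForestMorse φ r ∨ SubquadraticFilling φ r ∨
        Geometric.{u, v} H inferInstance)
      (L : Subgroup G) (_ : L ≤ H) (_ : L.FG), Group.IsFinitelyPresented L) := by
  have hA : ∀ (G S ι : Type u) [Group G] (φ : FreeGroup S →* G) (_ : Function.Surjective φ)
      (r : ι → List (S × Bool))
      (_ : φ.ker = Subgroup.normalClosure (Set.range fun i => FreeGroup.mk (r i)))
      (_ : Expandable φ r ∨ ForestMorse φ r) (m : ℕ) (_ : m ≠ 1) (H : Subgroup G)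
      (_ : TypeFP2Mod m H), Group.IsFinitelyPresented H := by
    intro G S ι _ φ hφ r hr hE m hm H hH
    have hr1 : ∀ i, φ (FreeGroup.mk (r i)) = 1 := by
      intro i
      have : FreeGroup.mk (r i) ∈ φ.ker := by
        rw [hr]
        exact Subgroup.subset_normalClosure ⟨i, rfl⟩
      exact this
    rcases hE with hE | hE
    · exact fp_of_expandable φ hφ r hr hE m hm H hH
    · exact fp_of_expandable φ hφ r hr (expandable_of_forestMorse φ r hr1 hE) m hm H hH
  refine ⟨hA, ?_, ?_, ?_⟩
  · intro G S ι _ φ hφ r hr h2 hs H hH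
    exact fp_of_subquadratic φ hφ r hr h2 hs H hH
  · intro H inst hgeo hcoh L hL
    exact coherent_of_geometric hgeo hcoh L hL
  · intro G S ι _ φ hφ r hr hX H K hK hcases hgeo L hLH hL
    have h1 : ∀ L : Subgroup G, L ≤ H → L.FG → TypeFP2 L := by
      intro L hLH hL
      refine Coherence.main_cases φ hφ r hr hX L K hL ?_ hcases
      intro h0
      exact hK (Subgroup.relIndex_eq_zero_of_le_right hLH h0)
    rcases hgeo with hE | hE | hs | hgeo
    · exact hA G S ι φ hφ r hr (Or.inl hE) 0 (by norm_num) L (h1 L hLH hL).mod_zero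
    · exact hA G S ι φ hφ r hr (Or.inr hE) 0 (by norm_num) L (h1 L hLH hL).mod_zero
    · exact fp_of_subquadratic φ hφ r hr (secondHomologyZero φ r hX) hs L (h1 L hLH hL)
    · have hLfg : Group.FG L := (Group.fg_iff_subgroup_fg L).2 hL
      let e : L.subgroupOf H ≃* L := Subgroup.subgroupOfEquivOfLe hLH
      have hfg : Group.FG (L.subgroupOf H) :=
        Group.fg_of_surjective (f := e.symm.toMonoidHom) e.symm.surjective
      have h2 := coherent_of_geometric hgeo (by
        intro M hM
        have hMfg : Group.FG M := (Group.fg_iff_subgroup_fg M).2 hM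
        let e3 : M ≃* M.map H.subtype := M.equivMapOfInjective _ (Subgroup.subtype_injective _)
        have h3 : (M.map H.subtype).FG := by
          rw [← Group.fg_iff_subgroup_fg]
          exact Group.fg_of_surjective (f := e3.toMonoidHom) e3.surjective
        refine Coherence.TypeFP2.of_equiv e3.symm (h1 _ ?_ h3)
        rintro _ ⟨m, _, rfl⟩
        exact m.2) (L.subgroupOf H) ((Group.fg_iff_subgroup_fg _).1 hfg)
      exact Group.IsFinitelyPresented.equiv e

end Pool.Agent.Results.MP_38357e_al.GeometricCoherence
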